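import Mathlib

set_option autoImplicit false

namespace Pool.Agent.Results.MP_121ed1_lc.Lin
open Finset Relation MeasureTheory ProbabilityTheory Classical

variable {V : Type} [Fintype V]

/-- sources: vertices of in-degree `0` -/
def Src (E : V → V → Prop) (v : V) : Prop := ∀ u, ¬ E u v

/-- the secrecy closure of the set `W` of wiretapped edges -/
def scl (E W : V → V → Prop) (u v : V) : Prop :=
  W u v ∨ (E u v ∧ ¬ ∃ s, Src E s ∧ ReflTransGen (fun a b => E a b ∧ ¬ W a b) s u)

/-- condition (C) -/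
def CondC (E W : V → V → Prop) (d : V) : Prop :=
  ∀ s, Src E s → ReflTransGen (fun a b => (E a b ∧ ¬ scl E W a b) ∨ (E b a ∧ ¬ scl E W b a)) s d

def dv (φ : V → V → ℝ) (v : V) : ℝ := ∑ w, φ v w - ∑ u, φ u v

noncomputable def ed (a b u v : V) : ℝ := if u = a ∧ v = b then 1 else 0

theorem dv_ed (a b v : V) : dv (ed a b) v = (if v = a then 1 else 0) - if v = b then 1 else 0 := by
  simp [dv, ed, ite_and, sum_ite_eq']

theorem dv_lin (φ ψ : V → V → ℝ) (c : ℝ) (v : V) :
    dv (fun a b => φ a b + c * ψ a b) v = dv φ v + c * dv ψ v := by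
  simp only [dv, sum_add_distrib, ← mul_sum]; ring

theorem und {F : V → V → Prop} {x y : V} (h : ReflTransGen (fun a b => F a b ∨ F b a) x y) :
    ∃ θ : V → V → ℝ, (∀ a b, θ a b ≠ 0 → F a b) ∧
      ∀ v, dv θ v = (if v = x then 1 else 0) - if v = y then 1 else 0 := by
  induction h with
  | refl => exact ⟨0, by simp, by simp [dv]⟩
  | @tail y z _ e ih =>
    obtain ⟨θ, a, b⟩ := ih
    rcases e with e | e
    · exact ⟨fun u v => θ u v + 1 * ed y z u v, fun u v => by grind [ed],
        fun v => by rw [dv_lin, dv_ed, b]; ring⟩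
    · exact ⟨fun u v => θ u v + -1 * ed z y u v, fun u v => by grind [ed],
        fun v => by rw [dv_lin, dv_ed, b]; ring⟩

theorem flow {E W : V → V → Prop} {d : V} (ac : ∀ v, ¬ TransGen E v v) (hC : CondC E W d) :
    ∃ φ : V → V → ℝ, (∀ a b, φ a b ≠ 0 → E a b ∧ ¬ W a b) ∧
      (∀ v ≠ d, dv φ v = if Src E v then 1 else 0) ∧
      ∀ u w, φ u w ≠ 0 → Src E u ∨ ∃ a, φ a u ≠ 0 := by
  let G : (V → V → ℝ) → Prop := fun φ => (∀ a b, φ a b ≠ 0 → E a b ∧ ¬ scl E W a b) ∧
    ∀ v ≠ d, dv φ v = if Src E v then 1 else 0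
  obtain ⟨φ, ⟨g1, g2⟩, mx⟩ : ∃ φ, G φ ∧ ∀ ψ, G ψ →
      #{e : V × V | ψ e.1 e.2 ≠ 0} ≤ #{e : V × V | φ e.1 e.2 ≠ 0} := by
    choose! θ a b using fun s h => und (hC s h)
    refine (Set.Finite.exists_maximalFor' (fun ψ : V → V → ℝ => #{e : V × V | ψ e.1 e.2 ≠ 0})
      {φ | G φ} ((Set.finite_le_nat (Fintype.card (V × V))).subset ?_)
      ⟨fun u v => ∑ s with Src E s, θ s u v, fun u v h => ?_, fun v h => ?_⟩).imp
      fun φ h => ⟨h.1, fun ψ e => h.le e⟩
    · rintro _ ⟨ψ, -, rfl⟩
      exact card_le_univ _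
    · obtain ⟨s, c, e⟩ := exists_ne_zero_of_sum_ne_zero h
      exact a s (mem_filter.1 c).2 u v e
    · rw [dv, sum_comm, sum_comm (s := univ), ← sum_sub_distrib]
      exact (sum_congr rfl fun s c => b s (mem_filter.1 c).2 v).trans (by simp [h])
  let C : V → Prop := fun x => ReflTransGen (fun a b => φ a b ≠ 0 ∨ φ b a ≠ 0) x d
  have c1 : ∀ a b, φ a b ≠ 0 → (C a ↔ C b) := fun a b h =>
    ⟨fun e => .head (.inr h) e, fun e => .head (.inl h) e⟩
  have c2 : ∀ v, dv (fun a b => if C a then φ a b else 0) v = if C v then dv φ v else 0 :=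
    fun v => by
      rw [dv, sum_congr rfl fun u _ => show (if C u then φ u v else 0) = if C v then φ u v else 0 by
        grind]
      split_ifs <;> simp [dv]
  have c3 : ∀ s, Src E s → C s := fun s h => by_contra fun n => by
    have t : ∀ ψ : V → V → ℝ, ∑ v, dv ψ v = 0 := fun ψ => by
      simp only [dv, sum_sub_distrib]; rw [sum_comm, sub_self]
    have := t fun a b => φ a b + -1 * if C a then φ a b else 0
    simp only [dv_lin, c2] at this
    have := (sum_eq_zero_iff_of_nonneg fun v _ => by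
      by_cases c : C v
      · simp [c]
      · rw [g2 v fun e => c (e ▸ .refl)]
        split_ifs <;> simp).1 this s (mem_univ s)
    rw [g2 s fun e => n (e ▸ .refl)] at this
    simp [h, n] at this
  refine ⟨fun a b => if C a then φ a b else 0, fun a b h => ?_, fun v h => ?_, fun u w h => ?_⟩
  · have := g1 a b (by grind)
    exact ⟨this.1, fun e => this.2 (.inl e)⟩
  · grind
  by_contra! n
  have ⟨cu, h⟩ : C u ∧ φ u w ≠ 0 := by grind
  have z : ∀ a, φ a u = 0 := by grind
  obtain ⟨s, hs, p⟩ : ∃ s, Src E s ∧ ReflTransGen (fun a b => E a b ∧ ¬ W a b) s u :=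
    by_contra fun c => (g1 u w h).2 (.inr ⟨(g1 u w h).1, c⟩)
  obtain rfl | ⟨a, p, e⟩ := p.cases_tail
  · exact n.1 hs
  have l : ∀ a b, ReflTransGen (fun a b => E a b ∧ ¬ W a b) s a → E a b ∧ ¬ W a b →
      E a b ∧ ¬ scl E W a b := fun a b p e => ⟨e.1, fun c => c.elim e.2 fun c => c.2 ⟨s, hs, p⟩⟩
  have q : ∀ a, ReflTransGen (fun a b => E a b ∧ ¬ W a b) s a → TransGen E a u → ReflTransGen
      (fun a b => ((E a b ∧ ¬ scl E W a b) ∧ b ≠ u) ∨ (E b a ∧ ¬ scl E W b a) ∧ a ≠ u) s a :=
    fun a p => by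
      induction p with
      | refl => exact fun _ => .refl
      | tail p e ih => exact fun t => (ih (.head e.1 t)).tail (.inl ⟨l _ _ p e, fun c => ac u (c ▸ t)⟩)
  obtain ⟨ψ, p1, p2⟩ := und (q a p (.single e.1))
  obtain ⟨θ, t1, t2⟩ := und (c3 s hs)
  obtain ⟨η, e1, e2⟩ := und cu
  obtain ⟨κ, hκ⟩ : ∃ κ : V → V → ℝ, κ = fun x y =>
    ψ x y + 1 * ed a u x y + -1 * θ x y + 1 * η x y := ⟨_, rfl⟩
  obtain ⟨ε, hε⟩ := Infinite.exists_notMem_finset
    (insert 0 (univ.image fun x : V × V => -φ x.1 x.2 / κ x.1 x.2))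
  simp only [mem_insert, mem_image, mem_univ, true_and, not_or, not_exists] at hε
  refine (mx (fun x y => φ x y + ε * κ x y) ⟨fun x y c => ?_, fun v c => ?_⟩).not_gt
    (card_lt_card ⟨fun x => ?_, fun c => ?_⟩)
  · by_contra f
    have : ed a u x y = 0 := if_neg fun c : x = a ∧ y = u => f (c.1 ▸ c.2 ▸ l a u p e)
    have : ψ x y = 0 := by_contra fun c => f (p1 x y c).1
    have : φ x y = 0 := by_contra fun c => f (g1 x y c)
    have : θ x y = 0 := by_contra fun c => t1 x y c this
    grind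
  · rw [dv_lin, g2 v c, hκ, dv_lin, dv_lin, dv_lin, p2, t2, e2, dv_ed]; ring
  · simp only [mem_filter, mem_univ, true_and]
    intro c f
    by_cases k : κ x.1 x.2 = 0
    · simp [k, c] at f
    · exact hε.2 x (by field_simp; linarith)
  · have := @c (a, u)
    grind [ed]

theorem coef {E : V → V → Prop} {φ : V → V → ℝ} {v : V} (h1 : ∀ a b, φ a b ≠ 0 → E a b)
    (h2 : ∃ w, E v w) (h3 : dv φ v = 0) (h4 : ∀ w, φ v w ≠ 0 → ∃ a, φ a v ≠ 0) :
    ∃ k : V → V → ℝ, (∀ u, ∑ w with E v w, k u w = 1) ∧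
      ∀ w, ∑ u with E u v, k u w * φ u v = φ v w := by
  obtain ⟨b, hb⟩ := h2
  by_cases c : ∃ a, φ a v ≠ 0
  · obtain ⟨a, ha⟩ := c
    have e1 : ∑ w with E v w, φ v w = ∑ w, φ v w := sum_filter_of_ne fun w _ => h1 v w
    have e2 : ∑ u with E u v, φ u v = ∑ u, φ u v := sum_filter_of_ne fun u _ => h1 u v
    refine ⟨fun u w => (if w = b then 1 else 0) + if u = a then
      (φ v w - if w = b then ∑ u, φ u v else 0) / φ a v else 0, fun u => ?_, fun w => ?_⟩
    · by_cases u = a <;> simp [sum_add_distrib, ← sum_div, sub_eq_zero.1 h3, *]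
    · by_cases w = b <;> simp [add_mul, sum_add_distrib, h1 a v ha, *]
  · push Not at c
    refine ⟨fun _ w => if w = b then 1 else 0, by simp [hb], fun w => ?_⟩
    simp only [c, mul_zero, sum_const_zero]
    exact (by_contra fun e => (h4 w e).elim fun a e => e (c a) : φ v w = 0).symm

theorem result {V : Type} [Fintype V] [Nontrivial V] (E W : V → V → Prop) (d : V)
    (ac : ∀ v, ¬ TransGen E v v) (cn : ∀ u v, ReflTransGen (fun a b => E a b ∨ E b a) u v)
    (hd : ∀ v, (∀ w, ¬ E v w) ↔ v = d) (hW : ∀ a b, W a b → E a b) (hC : CondC E W d) :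
    ∃ (k : V → V → V → ℝ) (l : V → V → ℝ) (m : V → ℝ),
      ∀ (Ω : Type) [MeasurableSpace Ω] (P : Measure Ω) (X : {s // Src E s} → Ω → ℝ),
        (∀ s, HasLaw (X s) (gaussianReal 0 1) P) → iIndepFun X P → ∃ Y : V → V → Ω → ℝ,
          (∀ v w ω, E v w → Y v w ω = ∑ u with E u v, k u v w * Y u v ω +
            if h : Src E v then l v w * X ⟨v, h⟩ ω else 0) ∧
          (∀ ω, ∑ u with E u d, m u * Y u d ω = ∑ s, X s ω) ∧
          IndepFun (fun ω (e : {e : V × V // W e.1 e.2}) => Y e.1.1 e.1.2 ω)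
            (fun ω => ∑ s, X s ω) P := by
  obtain ⟨φ, f1, f2, f3⟩ := flow ac hC
  have sd : ¬ Src E d := fun h => by
    obtain ⟨v, e⟩ := exists_ne d
    obtain rfl | ⟨a, -, c | c⟩ := (cn v d).cases_tail
    exacts [e rfl, h _ c, (hd d).2 rfl _ c]
  choose! k k1 k2 using fun v (h : v ≠ d ∧ ¬ Src E v) => coef (v := v) (fun a b e => (f1 a b e).1)
    (by_contra fun c => h.1 ((hd v).1 fun w e => c ⟨w, e⟩)) (by rw [f2 v h.1, if_neg h.2])
    fun w e => (f3 v w e).resolve_left h.2
  have wf : WellFounded E := Subrelation.wf (fun e => .single e)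
    (@Finite.wellFounded_of_trans_of_irrefl _ _ (TransGen E) _ ⟨ac⟩)
  obtain ⟨c, hc⟩ : ∃ c : V → V → {s // Src E s} → ℝ, ∀ v w s, c v w s =
      ∑ u with E u v, k v u w * c u v s + if v = s then φ v w else 0 := by
    refine ⟨wf.fix fun v r w s => ∑ u, (if h : E u v then k v u w * r u h v s else 0) +
      if v = s then φ v w else 0, fun v w s => ?_⟩
    rw [wf.fix_eq]
    simp [sum_filter]
  have se : ∀ v, Src E v → ∀ f : V → ℝ, ∑ u with E u v, f u = 0 := fun v h f =>
    sum_eq_zero fun u e => (h u (mem_filter.1 e).2).elim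
  have c1 : ∀ v, v ≠ d → ∀ w, ∑ s, c v w s = φ v w := fun v => wf.induction
    (C := fun v => v ≠ d → ∀ w, ∑ s, c v w s = φ v w) v fun v ih h w => by
      simp only [hc v, sum_add_distrib]
      by_cases e : Src E v
      · rw [sum_eq_single (f := fun s : {s // Src E s} => if v = s then φ v w else 0) ⟨v, e⟩] <;>
          simp +contextual [se v e, Subtype.ext_iff, eq_comm]
      · rw [sum_comm, sum_eq_zero (f := fun s : {s // Src E s} => if v = s then φ v w else 0)
          fun s _ => if_neg fun a : v = s => e (a ▸ s.2), add_zero, ← k2 v ⟨h, e⟩]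
        exact sum_congr rfl fun u a => by
          rw [← mul_sum, ih u (mem_filter.1 a).2 fun b => (hd u).2 b v (mem_filter.1 a).2]
  have c2 : ∀ s, ∑ u with E u d, c u d s = 1 := fun s => by
    have a : ∀ v, ∑ w with E v w, c v w s + (if v = d then ∑ u with E u d, c u d s else 0) =
        ∑ u with E u v, c u v s + if v = s then 1 else 0 := fun v => by
      by_cases h : v = d
      · subst h
        rw [sum_eq_zero fun w e => ((hd v).2 rfl w (mem_filter.1 e).2).elim, if_pos rfl,
          if_neg fun a : v = s => sd (a ▸ s.2), zero_add, add_zero]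
      simp only [hc v, sum_add_distrib, if_neg h, add_zero]
      by_cases e : Src E v
      · have := f2 v h
        rw [dv, sum_eq_zero (f := (φ · v)) fun u _ => by_contra fun a => e u (f1 u v a).1,
          ← sum_filter_of_ne fun w _ a => (f1 v w a).1] at this
        rw [if_pos e, sub_zero] at this
        split_ifs <;> simp [se v e, this]
      · rw [sum_comm]
        simp [← sum_mul, k1 v ⟨h, e⟩, show v ≠ s from fun a => e (a ▸ s.2)]
    have := sum_congr rfl fun v (_ : v ∈ univ) => a v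
    simp only [sum_add_distrib, sum_filter] at this ⊢
    rw [sum_comm] at this
    simpa using this
  refine ⟨fun u v w => k v u w, φ, 1, fun Ω _ P X h1 h2 => ⟨fun v w ω => ∑ s, c v w s * X s ω,
    fun v w ω _ => ?_, fun ω => ?_, ?_⟩⟩
  · simp only [hc v, add_mul, sum_add_distrib, sum_mul, mul_sum, mul_assoc]
    rw [sum_comm]
    congr 1
    split_ifs with e
    · rw [sum_eq_single ⟨v, e⟩] <;> simp +contextual [Subtype.ext_iff, eq_comm]
    · exact sum_eq_zero fun s _ => by rw [if_neg fun a : v = s => e (a ▸ s.2), zero_mul]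
  · simp only [Pi.one_apply, one_mul]
    rw [sum_comm]
    simp [← sum_mul, c2]
  have g := fun s => (h1 s).hasGaussianLaw
  have := h2.isProbabilityMeasure
  refine (HasGaussianLaw.indepFun_of_covariance_eval (κ := Unit)
    (X := fun (e : {e : V × V // W e.1 e.2}) ω => ∑ s, c e.1.1 e.1.2 s * X s ω)
    (Y := fun _ ω => ∑ s, X s ω) ?_ fun e _ => ?_).comp measurable_id (measurable_pi_apply ())
  · refine ((h2.hasGaussianLaw g).map_fun (.prod (.pi fun e : {e : V × V // W e.1 e.2} =>
      ∑ s, c e.1.1 e.1.2 s • ContinuousLinearMap.proj (R := ℝ) (φ := fun _ => ℝ) s)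
      (.pi fun _ : Unit => ∑ s, ContinuousLinearMap.proj (R := ℝ) (φ := fun _ => ℝ) s))).congr
      (.of_forall fun ω => ?_)
    ext <;> simp
  · rw [covariance_fun_sum_fun_sum (fun s => (g s).memLp_two.const_mul _) fun s => (g s).memLp_two]
    have : ∀ s t, cov[X s, X t; P] = if s = t then 1 else 0 := fun s t => by
      split_ifs with a
      · rw [a, covariance_self (g t).aemeasurable, (h1 t).variance_eq]; simp
      · exact (h2.indepFun a).covariance_eq_zero (g s).memLp_two (g t).memLp_two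
    simp only [covariance_const_mul_left, this, mul_ite, mul_one, mul_zero, sum_ite_eq, mem_univ,
      if_true]
    rw [c1 _ fun a => (hd _).2 a _ (hW _ _ e.2)]
    exact by_contra fun a => (f1 _ _ a).2 e.2

end Pool.Agent.Results.MP_121ed1_lc.Lin
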